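import Pool.Agent.H181R5.NLT.MainOf
import Pool.Agent.H181R5.NLH.Hard

/-!
# Assembly: nearly half of all arcs suffice for hardness
-/

set_option autoImplicit false

namespace Pool.Agent.H181R5.NLT

open Finset Pool.Agent.H181R5.NLH

theorem easy_mono {V : Type} {H : Finset (V × V)} {N N' : ℕ} (h : Easy V H N) (hN : N ≤ N') :
    Easy V H N' := by
  intro s t
  obtain ⟨Q, hQ, P, hc, hP⟩ := h s t
  exact ⟨Q, hQ, P, hc.trans hN, hP⟩

theorem easy_subset {V : Type} {H H' : Finset (V × V)} {N : ℕ} (h : Easy V H N) (hH : H' ⊆ H) :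
    Easy V H' N := by
  intro s t
  obtain ⟨Q, hQ, P, hc, hP⟩ := h s t
  exact ⟨Q, hQ, P, hc, fun x hx => hP x fun e he => hH (hx e he)⟩

/-- the number of vertices that suffices -/
def KK (r : ℕ) : ℕ := (64 * (200 * (r * (r + 1))) ^ 4) ^ 5

theorem rpow_five {n q : ℕ} (h : (64 * q) ^ 5 ≤ n) :
    64 * (q : ℝ) * (n : ℝ) ^ (9 / 5 : ℝ) ≤ (n : ℝ) ^ 2 := by
  have hn : (0 : ℝ) ≤ n := Nat.cast_nonneg _
  have h1 : 64 * (q : ℝ) ≤ (n : ℝ) ^ (1 / 5 : ℝ) := by
    have h2 : ((64 * (q : ℝ)) ^ (5 : ℕ)) ≤ (n : ℝ) := by exact_mod_cast h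
    have h3 : (((64 * (q : ℝ)) ^ (5 : ℕ)) ^ (1 / 5 : ℝ)) ≤ (n : ℝ) ^ (1 / 5 : ℝ) :=
      Real.rpow_le_rpow (by positivity) h2 (by norm_num)
    rw [← Real.rpow_natCast, ← Real.rpow_mul (by positivity)] at h3
    norm_num at h3
    linarith
  rcases Nat.eq_zero_or_pos n with h0 | h0
  · subst h0
    norm_num
  · have hn' : (0 : ℝ) < n := by exact_mod_cast h0
    calc 64 * (q : ℝ) * (n : ℝ) ^ (9 / 5 : ℝ) ≤ (n : ℝ) ^ (1 / 5 : ℝ) * (n : ℝ) ^ (9 / 5 : ℝ) := by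
          gcongr
      _ = (n : ℝ) ^ ((1 / 5 : ℝ) + 9 / 5) := by rw [Real.rpow_add hn']
      _ = (n : ℝ) ^ 2 := by
          rw [show ((1 / 5 : ℝ) + 9 / 5) = ((2 : ℕ) : ℝ) by norm_num, Real.rpow_natCast]

theorem card_none {n : ℕ} (H : Finset (Fin n × Fin n)) :
    (univ.filter fun e : Fin n × Fin n => e ∉ H ∧ (e.2, e.1) ∉ H).card + 2 * H.card =
      n ^ 2 + (H.filter fun e => (e.2, e.1) ∈ H).card := by
  classical
  set H' : Finset (Fin n × Fin n) := H.image Prod.swap with hH'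
  have h1 : H'.card = H.card := card_image_of_injective _ Prod.swap_injective
  have hmem : ∀ e : Fin n × Fin n, e ∈ H' ↔ (e.2, e.1) ∈ H := by
    intro e
    rw [hH', mem_image]
    constructor
    · rintro ⟨e', he', rfl⟩
      exact he'
    · intro he
      exact ⟨(e.2, e.1), he, rfl⟩
  have h2 : (H.filter fun e => (e.2, e.1) ∈ H) = H ∩ H' := by
    ext e
    rw [mem_filter, mem_inter, hmem]
  have h3 : (univ.filter fun e : Fin n × Fin n => e ∉ H ∧ (e.2, e.1) ∉ H) = (H ∪ H')ᶜ := by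
    ext e
    rw [mem_filter, mem_compl, mem_union, hmem, not_or]
    simp
  have h4 := card_union_add_card_inter H H'
  have h5 : (H ∪ H')ᶜ.card + (H ∪ H').card = n ^ 2 := by
    rw [card_compl_add_card, Fintype.card_prod, Fintype.card_fin, sq]
  rw [h2, h3]
  omega

theorem hard_final (hM : TaskMain) (hR : TaskRed) (hT : TaskTT) (hU : TaskTuran)
    (r n N : ℕ) (hn : KK r ≤ n) (H : Finset (Fin n × Fin n))
    (hH : (n : ℝ) ^ 2 / 2 - (n : ℝ) ^ (9 / 5 : ℝ) ≤ (H.card : ℝ)) (he : Easy (Fin n) H N) :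
    Easy (Fin r) univ N := by
  classical
  rcases Nat.eq_zero_or_pos r with hr | hr
  · subst hr
    intro s
    exact s.elim0
  set q : ℕ := (200 * (r * (r + 1))) ^ 4 with hq
  have hq1 : 1 ≤ q := Nat.one_le_iff_ne_zero.2 (by positivity)
  have hrr : r ≤ r * (r + 1) := Nat.le_mul_of_pos_right r (by omega)
  have h200 : r ^ 4 ≤ q := Nat.pow_le_pow_left (by omega) 4
  have hrq : r + 1 ≤ q := by
    have h1 : r + 1 ≤ 200 * (r * (r + 1)) := by nlinarith
    have h2 : 200 * (r * (r + 1)) ≤ (200 * (r * (r + 1))) ^ 4 :=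
      Nat.le_self_pow (by norm_num) _
    exact h1.trans h2
  have hn5 : (64 * q) ^ 5 ≤ n := hn
  have hqn : 64 * q ≤ n := (Nat.le_self_pow (by norm_num) _).trans hn5
  have hn0 : 0 < n := by omega
  have hnR : (0 : ℝ) < n := by exact_mod_cast hn0
  have hqR : (1 : ℝ) ≤ q := by exact_mod_cast hq1
  have hq0 : (0 : ℝ) < q := by linarith
  by_cases hb : 1 / (32 * (q : ℝ)) * (n : ℝ) ^ 2 ≤ ((H.filter fun e => (e.2, e.1) ∈ H).card : ℝ)
  · refine hard_of_both (δ := 1 / (32 * (q : ℝ))) (by positivity) (by omega) ?_ H hb he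
    have h1 : ((r : ℝ) + 1) ≤ q := by exact_mod_cast hrq
    have h2 : ((64 * (q : ℝ)) ^ 5) ≤ n := by exact_mod_cast hn5
    rw [one_div, inv_pow, ← div_eq_inv_mul, le_div_iff₀ (by positivity)]
    calc ((r : ℝ) + 1) * (32 * (q : ℝ)) ^ 4 ≤ q * (64 * (q : ℝ)) ^ 4 := by gcongr; norm_num
      _ ≤ (64 * (q : ℝ)) * (64 * (q : ℝ)) ^ 4 := by gcongr; linarith
      _ = (64 * (q : ℝ)) ^ 5 := by ring
      _ ≤ n := h2
  · push Not at hb
    have h1 := card_none H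
    have h1' : ((univ.filter fun e : Fin n × Fin n => e ∉ H ∧ (e.2, e.1) ∉ H).card : ℝ) +
        2 * (H.card : ℝ) = (n : ℝ) ^ 2 + ((H.filter fun e => (e.2, e.1) ∈ H).card : ℝ) := by
      exact_mod_cast h1
    set Z : ℕ := (univ.filter fun e : Fin n × Fin n => e ∉ H ∧ (e.2, e.1) ∉ H).card with hZ
    have h2 := rpow_five hn5
    have h3 : (16 : ℝ) * q * Z ≤ (n : ℝ) ^ 2 := by
      have h4 : (Z : ℝ) ≤ 2 * (n : ℝ) ^ (9 / 5 : ℝ) + 1 / (32 * (q : ℝ)) * (n : ℝ) ^ 2 := by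
        linarith
      have h5 : 16 * (q : ℝ) * (1 / (32 * (q : ℝ)) * (n : ℝ) ^ 2) = (n : ℝ) ^ 2 / 2 := by
        field_simp
        norm_num
      calc (16 : ℝ) * q * Z ≤ 16 * q * (2 * (n : ℝ) ^ (9 / 5 : ℝ) +
            1 / (32 * (q : ℝ)) * (n : ℝ) ^ 2) := by gcongr
        _ = (64 * (q : ℝ) * (n : ℝ) ^ (9 / 5 : ℝ)) / 2 +
            16 * (q : ℝ) * (1 / (32 * (q : ℝ)) * (n : ℝ) ^ 2) := by ring
        _ ≤ (n : ℝ) ^ 2 / 2 + (n : ℝ) ^ 2 / 2 := by rw [h5]; gcongr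
        _ = (n : ℝ) ^ 2 := by ring
    have h3' : 16 * q * Z ≤ n ^ 2 := by exact_mod_cast h3
    obtain ⟨S, hS, hadj⟩ := hU (Fin n) H q hq1 (by rw [Fintype.card_fin]; omega)
      (by rw [Fintype.card_fin]; exact h3')
    have hSn : S.Nonempty := by
      rw [← card_pos]; omega
    obtain ⟨m, hm, hsub⟩ := hM (Fin n) (fun a b => (a, b) ∈ H) S hSn hadj
    have hrm : r * (r + 1) ≤ m := by
      have h6 : (q : ℝ) ^ (1 / 4 : ℝ) ≤ (S.card : ℝ) ^ (1 / 4 : ℝ) :=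
        Real.rpow_le_rpow (Nat.cast_nonneg _) (by exact_mod_cast hS) (by norm_num)
      have h7 : (q : ℝ) ^ (1 / 4 : ℝ) = 200 * ((r : ℝ) * (r + 1)) := by
        rw [hq]
        push_cast
        rw [← Real.rpow_natCast, ← Real.rpow_mul (by positivity)]
        norm_num
      rw [h7] at h6
      have h8 : ((r : ℝ) * (r + 1)) ≤ m := by linarith
      exact_mod_cast h8
    exact hT r m N hrm (hR (Fin n) H m N (hsub.mono (subset_univ _)) he)

/-- a polynomial bound -/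
theorem KK_bound (c : ℕ) : ∃ c' : ℕ, ∀ r : ℕ, KK r ^ c + c ≤ r ^ c' + c' := by
  refine ⟨250 * c + KK 1 ^ c + c, fun r => ?_⟩
  rcases Nat.lt_or_ge r 2 with hr | hr
  · have h1 : KK r ≤ KK 1 := by
      unfold KK
      have : r ≤ 1 := by omega
      gcongr
    have h2 : KK r ^ c ≤ KK 1 ^ c := Nat.pow_le_pow_left h1 c
    omega
  · have h1 : KK r ≤ r ^ 250 := by
      unfold KK
      have e1 : 200 ≤ r ^ 8 := by
        calc 200 ≤ 2 ^ 8 := by norm_num
          _ ≤ r ^ 8 := Nat.pow_le_pow_left hr 8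
      have e2 : 64 ≤ r ^ 6 := by
        calc 64 ≤ 2 ^ 6 := by norm_num
          _ ≤ r ^ 6 := Nat.pow_le_pow_left hr 6
      have e3 : r * (r + 1) ≤ r ^ 3 := by
        have e4 : r + 1 ≤ r * r := by nlinarith
        calc r * (r + 1) ≤ r * (r * r) := Nat.mul_le_mul_left _ e4
          _ = r ^ 3 := by ring
      calc (64 * (200 * (r * (r + 1))) ^ 4) ^ 5 ≤ (r ^ 6 * (r ^ 8 * r ^ 3) ^ 4) ^ 5 := by gcongr
        _ = r ^ 250 := by ring
    have h2 : KK r ^ c ≤ r ^ (250 * c) := by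
      calc KK r ^ c ≤ (r ^ 250) ^ c := Nat.pow_le_pow_left h1 c
        _ = r ^ (250 * c) := by rw [pow_mul]
    have h3 : r ^ (250 * c) ≤ r ^ (250 * c + KK 1 ^ c + c) :=
      Nat.pow_le_pow_right (by omega) (by omega)
    omega

/-- a polynomial bound for the layered hosts -/
theorem host_bound (k n : ℕ) : 2 + n ^ (k + 1) * (k + 1) ≤ n ^ (2 * k + 4) + (2 * k + 4) := by
  rcases Nat.lt_or_ge n 2 with hn | hn
  · interval_cases n
    · simp
    · simp
      omega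
  · have h1 : k + 1 ≤ n ^ (k + 1) := by
      calc k + 1 ≤ 2 ^ (k + 1) := Nat.lt_two_pow_self.le
        _ ≤ n ^ (k + 1) := Nat.pow_le_pow_left hn _
    have h2 : n ^ (k + 1) * (k + 1) ≤ n ^ (2 * k + 4) := by
      calc n ^ (k + 1) * (k + 1) ≤ n ^ (k + 1) * n ^ (k + 1) := Nat.mul_le_mul_left _ h1
        _ = n ^ (2 * k + 2) := by rw [← pow_add]; congr 1; ring
        _ ≤ n ^ (2 * k + 4) := Nat.pow_le_pow_right (by omega) (by omega)
    omega

/-- a tournament with `n` vertices has at least `n²/2 - n^(9/5)` arcs -/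
theorem tour_card {n : ℕ} (T : Finset (Fin n × Fin n))
    (hT : ∀ a b : Fin n, a ≠ b → ((a, b) ∈ T ↔ (b, a) ∉ T)) :
    (n : ℝ) ^ 2 / 2 - (n : ℝ) ^ (9 / 5 : ℝ) ≤ (T.card : ℝ) := by
  classical
  have h1 := card_none T
  have h2 : (univ.filter fun e : Fin n × Fin n => e ∉ T ∧ (e.2, e.1) ∉ T).card ≤ n := by
    have : (univ.filter fun e : Fin n × Fin n => e ∉ T ∧ (e.2, e.1) ∉ T) ⊆
        univ.image (fun a : Fin n => (a, a)) := by
      intro e he
      rw [mem_filter] at he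
      rw [mem_image]
      by_cases h : e.1 = e.2
      · exact ⟨e.1, mem_univ _, by ext <;> simp [h]⟩
      · exact absurd ((hT e.1 e.2 h).2 he.2.2) he.2.1
    refine (card_le_card this).trans (card_image_le.trans ?_)
    rw [card_univ, Fintype.card_fin]
  have h3 : (n : ℝ) ^ 2 ≤ 2 * T.card + n := by
    have : n ^ 2 ≤ 2 * T.card + n := by omega
    exact_mod_cast this
  rcases Nat.eq_zero_or_pos n with h0 | h0
  · subst h0
    norm_num
  · have h4 : (n : ℝ) ≤ (n : ℝ) ^ (9 / 5 : ℝ) := by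
      conv_lhs => rw [← Real.rpow_one (n : ℝ)]
      exact Real.rpow_le_rpow_of_exponent_le (by exact_mod_cast h0) (by norm_num)
    have h5 : (0 : ℝ) < n := by exact_mod_cast h0
    linarith

end Pool.Agent.H181R5.NLT
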