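import Pool.Agent.H181R5.NLT.Stmts

/-!
# Every semicomplete digraph contains a large subdivision of a transitive tournament
-/

set_option autoImplicit false

namespace Pool.Agent.H181R5.NLT

open Finset Pool.Agent.H181R5.NLH

theorem hasSub_one {V : Type} (D : V → V → Prop) (S : Finset V) (v : V) (hv : v ∈ S) :
    HasSub D S 1 := by
  have h : ∀ i j : Fin 1, ¬ i < j := fun i j hij => by
    have := i.2
    have := j.2
    have := Fin.lt_def.1 hij
    omega
  refine ⟨fun _ => v, fun _ _ => 1, fun _ _ _ => v, fun a b _ => Subsingleton.elim a b,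
    fun _ => hv, ?_, ?_, ?_, ?_, ?_⟩
  · intro i j hij; exact absurd hij (h i j)
  · intro i j hij; exact absurd hij (h i j)
  · intro i j hij; exact absurd hij (h i j)
  · intro i j k hij; exact absurd hij (h i j)
  · intro i j i' j' t t' hij; exact absurd hij (h i j)

theorem HasSub.mono {V : Type} {D : V → V → Prop} {S S' : Finset V} {m : ℕ} (h : HasSub D S m)
    (hS : S ⊆ S') : HasSub D S' m := by
  obtain ⟨u, len, p, h1, h2, h3, h4, h5, h6, h7⟩ := h
  exact ⟨u, len, p, h1, fun i => hS (h2 i), h3, h4, fun i j hij t ht ht' => hS (h5 i j hij t ht ht'),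
    h6, h7⟩

theorem main_of (hP : TaskPath) (hG : TaskGreedy) (hC : TaskCat) (h1 : TaskNum1)
    (h2 : TaskNum2) : TaskMain := by
  intro V _ _ D S
  induction' hs : S.card using Nat.strong_induction_on with s ih generalizing S
  intro hne hD
  have hs1 : 1 ≤ s := by rw [← hs]; exact hne.card_pos
  rcases h2 s hs1 with h | ⟨k, L, m, hk, hL, hm, hms, hsm⟩
  · obtain ⟨v, hv⟩ := hne
    exact ⟨1, by rw [Nat.cast_one]; exact h, hasSub_one D S v hv⟩
  · by_cases hK : KConn D S k
    · refine ⟨m, hsm, hG V D S (k / 2) L m (fun U hU hUc a ha b hb hab => ?_) hm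
        (by rw [hs]; exact hms)⟩
      exact hP V D S U k L a b hK (by rw [hs]; exact hL) hU hUc ha hb hab
    · unfold KConn at hK
      push Not at hK
      obtain ⟨A, B, hA, hB, hd, hAn, hBn, hc, hno⟩ := hK
      have hAB : ∀ x ∈ A, ∀ y ∈ B, D x y := by
        intro x hx y hy
        have hxy : x ≠ y := by
          rintro rfl
          exact Finset.disjoint_left.1 hd hx hy
        exact (hD x (hA hx) y (hB hy) hxy).resolve_right (hno y hy x hx)
      have hcard : A.card + B.card + (S \ (A ∪ B)).card = s := by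
        rw [← card_union_of_disjoint hd, add_comm, card_sdiff_add_card_eq_card
          (union_subset hA hB), hs]
      have hA1 := hAn.card_pos
      have hB1 := hBn.card_pos
      obtain ⟨a, ha, hSa⟩ := ih A.card (by omega) A rfl hAn
        (fun x hx y hy hxy => hD x (hA hx) y (hA hy) hxy)
      obtain ⟨b, hb, hSb⟩ := ih B.card (by omega) B rfl hBn
        (fun x hx y hy hxy => hD x (hB hx) y (hB hy) hxy)
      refine ⟨a + b, ?_, hC V D A B S a b hA hB hd hAB hSa hSb⟩
      have h3 : ((S \ (A ∪ B)).card + 1) ^ 4 ≤ s ^ 3 :=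
        (Nat.pow_le_pow_left (by omega : (S \ (A ∪ B)).card + 1 ≤ k) 4).trans hk
      have h4 := h1 A.card B.card (S \ (A ∪ B)).card s hA1 hB1 hcard h3
      push_cast
      linarith

end Pool.Agent.H181R5.NLT
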