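import Pool.Agent.H181R5.NLH.Layer

/-!
# Reachability on subgraphs of tournaments: statements of the tasks
-/

set_option autoImplicit false

namespace Pool.Agent.H181R5.NLT

open Finset Pool.Agent.H181R5.NLH

/-- The digraph `D` contains inside `S` a subdivision of the transitive tournament with `m`
vertices: branch vertices `u i`, and for `i < j` a path `p i j 0 = u i, …, p i j (len i j) = u j`;
the interior vertices of the paths are distinct and are not branch vertices. -/
def HasSub {V : Type} (D : V → V → Prop) (S : Finset V) (m : ℕ) : Prop :=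
  ∃ (u : Fin m → V) (len : Fin m → Fin m → ℕ) (p : Fin m → Fin m → ℕ → V),
    Function.Injective u ∧ (∀ i, u i ∈ S) ∧
    (∀ i j, i < j → 1 ≤ len i j ∧ p i j 0 = u i ∧ p i j (len i j) = u j) ∧
    (∀ i j, i < j → ∀ t, t < len i j → D (p i j t) (p i j (t + 1))) ∧
    (∀ i j, i < j → ∀ t, 0 < t → t < len i j → p i j t ∈ S) ∧
    (∀ i j k, i < j → ∀ t, 0 < t → t < len i j → p i j t ≠ u k) ∧
    (∀ i j i' j' t t', i < j → i' < j' → 0 < t → t < len i j → 0 < t' → t' < len i' j' →
      p i j t = p i' j' t' → i = i' ∧ j = j' ∧ t = t')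

/-- One cannot separate `D` inside `S` by deleting fewer than `k` vertices: for disjoint nonempty
`A`, `B ⊆ S` that cover all but fewer than `k` vertices of `S` there is an arc from `B` to `A`. -/
def KConn {V : Type} [DecidableEq V] (D : V → V → Prop) (S : Finset V) (k : ℕ) : Prop :=
  ∀ A B : Finset V, A ⊆ S → B ⊆ S → Disjoint A B → A.Nonempty → B.Nonempty →
    (S \ (A ∪ B)).card < k → ∃ b ∈ B, ∃ a ∈ A, D b a

/-- A path from `a` to `b` in `S \ U` with at most `L` arcs. -/
def ShortPath {V : Type} [DecidableEq V] (D : V → V → Prop) (S U : Finset V) (L : ℕ) (a b : V) :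
    Prop :=
  ∃ (n : ℕ) (p : ℕ → V), 1 ≤ n ∧ n ≤ L ∧ p 0 = a ∧ p n = b ∧
    (∀ t, t < n → D (p t) (p (t + 1))) ∧ (∀ t, t ≤ n → p t ∈ S \ U) ∧
    (∀ t t', t ≤ n → t' ≤ n → p t = p t' → t = t')

/-- PATH.  Breadth-first search in `S \ U` from `a`: `R 0 = {a}`,
`R (i + 1) = R i ∪ (out-neighbours of R i in S \ U)`.  There is no arc from `B := R i` to
`A := (S \ U) \ R (i + 1)`, so as long as `b ∉ R (i + 1)` we have
`|R (i + 1) \ R i| + |U| ≥ k`, thus `|R (i + 1) \ R i| ≥ k / 2`; if `b ∉ R L` then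
`|S| ≥ |R L| ≥ 1 + L * (k / 2)`, a contradiction.  Take a shortest path. -/
def TaskPath : Prop := ∀ (V : Type) [Fintype V] [DecidableEq V] (D : V → V → Prop)
  (S U : Finset V) (k L : ℕ) (a b : V), KConn D S k → S.card ≤ (k / 2) * L → U ⊆ S →
  U.card ≤ k / 2 → a ∈ S \ U → b ∈ S \ U → a ≠ b → ShortPath D S U L a b

/-- GREEDY.  Choose any `m` vertices of `S` as branch vertices, and then the paths for the pairs
`i < j` one after the other, `U` := the other branch vertices and the interior vertices of the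
paths already chosen. -/
def TaskGreedy : Prop := ∀ (V : Type) [Fintype V] [DecidableEq V] (D : V → V → Prop)
  (S : Finset V) (h L m : ℕ),
  (∀ U : Finset V, U ⊆ S → U.card ≤ h → ∀ a ∈ S \ U, ∀ b ∈ S \ U, a ≠ b →
    ShortPath D S U L a b) → m + m ^ 2 * L ≤ h → m ≤ S.card → HasSub D S m

/-- CAT.  Two subdivisions in disjoint sets with all arcs from the first to the second: the
branch vertices of `A` come first, and between the two we use the direct arcs (`len = 1`). -/
def TaskCat : Prop := ∀ (V : Type) [DecidableEq V] (D : V → V → Prop) (A B S : Finset V)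
  (a b : ℕ), A ⊆ S → B ⊆ S → Disjoint A B → (∀ x ∈ A, ∀ y ∈ B, D x y) → HasSub D A a →
  HasSub D B b → HasSub D S (a + b)

/-- NUM1.  (By concavity `a^(1/4) + b^(1/4) ≥ 1 + (a+b-1)^(1/4)`, and
`(s - y)^(1/4) ≥ s^(1/4) (1 - y/s) ≥ s^(1/4) - 1` for `y = x + 1 ≤ s^(3/4)`.) -/
def TaskNum1 : Prop := ∀ a b x s : ℕ, 1 ≤ a → 1 ≤ b → a + b + x = s → (x + 1) ^ 4 ≤ s ^ 3 →
  (s : ℝ) ^ (1 / 4 : ℝ) ≤ (a : ℝ) ^ (1 / 4 : ℝ) + (b : ℝ) ^ (1 / 4 : ℝ)

/-- NUM2.  With `r = ⌊s^(1/4)⌋`: if `r < 12` the first alternative, otherwise `k = r^3`,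
`m = r / 12`, `L = 40 r` (or any convenient choice). -/
def TaskNum2 : Prop := ∀ s : ℕ, 1 ≤ s → (s : ℝ) ^ (1 / 4 : ℝ) / 200 ≤ 1 ∨
  ∃ k L m : ℕ, k ^ 4 ≤ s ^ 3 ∧ s ≤ (k / 2) * L ∧ m + m ^ 2 * L ≤ k / 2 ∧ m ≤ s ∧
    (s : ℝ) ^ (1 / 4 : ℝ) / 200 ≤ m

/-- MAIN (helper181).  Every semicomplete digraph contains a large subdivision. -/
def TaskMain : Prop := ∀ (V : Type) [Fintype V] [DecidableEq V] (D : V → V → Prop)
  (S : Finset V), S.Nonempty → (∀ a ∈ S, ∀ b ∈ S, a ≠ b → D a b ∨ D b a) →
  ∃ m : ℕ, (S.card : ℝ) ^ (1 / 4 : ℝ) / 200 ≤ m ∧ HasSub D S m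

/-- RED.  Reduction of reachability on subgraphs of the transitive tournament to the host.
Compare `NLH/Hard.lean` (`live`, `lift_iff`, `reach_lift`, `red_accepts`, `hard_of_both`), which
does the same for paths with two arcs.  An arc `e` of the host belongs to at most one pair
`(i, j)`, `i < j`, i.e. `e = (p i j t, p i j (t + 1))` with `t < len i j`. -/
def TaskRed : Prop := ∀ (V : Type) [Fintype V] [DecidableEq V] (H : Finset (V × V)) (m N : ℕ),
  HasSub (fun a b => (a, b) ∈ H) univ m → Easy V H N →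
  Easy (Fin m) (univ.filter fun e : Fin m × Fin m => e.1 < e.2) N

/-- TT.  Reachability on `r` vertices reduces to subgraphs of the transitive tournament on
`r * (r + 1) ≤ m` vertices: the vertex `v` in the layer `i ≤ r` is `i * r + v`; from layer `i` to
layer `i + 1` we have the arcs `(v, v')` of the given digraph and all arcs `(v, v)` (as constants:
the program for `m` vertices is run with these bits set to true, all other bits to false).
`NLH.LW` and `NLH.lw_iff` are lazy walks; a lazy walk with `r` steps suffices (the sets of the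
vertices reached by lazy walks with `k` steps grow strictly until they are stable). -/
def TaskTT : Prop := ∀ r m N : ℕ, r * (r + 1) ≤ m →
  Easy (Fin m) (univ.filter fun e : Fin m × Fin m => e.1 < e.2) N → Easy (Fin r) univ N

/-- TURAN.  If few ordered pairs are non-adjacent there is a large clique.  Greedily: at least
`n / 2` vertices have at most `n / (8 q)` non-neighbours; choose one of them, delete it and its
non-neighbours (at most `n / (4 q)` vertices), and so on, `q` times. -/
def TaskTuran : Prop := ∀ (V : Type) [Fintype V] [DecidableEq V] (H : Finset (V × V)) (q : ℕ),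
  1 ≤ q → 8 * q ≤ Fintype.card V →
  16 * q * (univ.filter fun e : V × V => e ∉ H ∧ (e.2, e.1) ∉ H).card ≤ Fintype.card V ^ 2 →
  ∃ S : Finset V, q ≤ S.card ∧ ∀ a ∈ S, ∀ b ∈ S, a ≠ b → (a, b) ∈ H ∨ (b, a) ∈ H

end Pool.Agent.H181R5.NLT
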