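import Pool.Agent.H181R5.NLT.Final

/-!
# The threshold theorem, from the tasks
-/

set_option autoImplicit false

namespace Pool.Agent.H181R5.NLT

open Finset Pool.Agent.H181R5.NLH

theorem final_of (hM : TaskMain) (hR : TaskRed) (hT : TaskTT) (hU : TaskTuran) :
    (∀ r n N : ℕ, (64 * (200 * (r * (r + 1))) ^ 4) ^ 5 ≤ n → ∀ H : Finset (Fin n × Fin n),
      (n : ℝ) ^ 2 / 2 - (n : ℝ) ^ (9 / 5 : ℝ) ≤ (H.card : ℝ) → Easy (Fin n) H N →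
      Easy (Fin r) univ N) ∧
    (∀ H : (n : ℕ) → Finset (Fin n × Fin n),
      (∀ n : ℕ, (n : ℝ) ^ 2 / 2 - (n : ℝ) ^ (9 / 5 : ℝ) ≤ ((H n).card : ℝ)) →
      ((∃ c : ℕ, ∀ n : ℕ, Easy (Fin n) (H n) (n ^ c + c)) ↔
        ∃ c : ℕ, ∀ r : ℕ, Easy (Fin r) univ (r ^ c + c))) ∧
    (∀ (n : ℕ) (T : Finset (Fin n × Fin n)),
      (∀ a b : Fin n, a ≠ b → ((a, b) ∈ T ↔ (b, a) ∉ T)) →
      (n : ℝ) ^ 2 / 2 - (n : ℝ) ^ (9 / 5 : ℝ) ≤ (T.card : ℝ)) ∧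
    (∀ ε : ℝ, 0 < ε → ∃ c : ℕ, ∀ n : ℕ, ∃ H : Finset (Fin n × Fin n),
      (1 / 2 - ε) * (n : ℝ) ^ 2 ≤ (H.card : ℝ) ∧ Easy (Fin n) H (n ^ c + c)) := by
  refine ⟨fun r n N hn H hH he => hard_final hM hR hT hU r n N hn H hH he, fun H hH => ?_,
    fun n T hT' => tour_card T hT', fun ε hε => ?_⟩
  · constructor
    · rintro ⟨c, hc⟩
      obtain ⟨c', hc'⟩ := KK_bound c
      exact ⟨c', fun r => easy_mono
        (hard_final hM hR hT hU r (KK r) _ le_rfl (H (KK r)) (hH (KK r)) (hc (KK r))) (hc' r)⟩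
    · rintro ⟨c, hc⟩
      exact ⟨c, fun n => easy_subset (hc n) (subset_univ _)⟩
  · obtain ⟨k, hk⟩ := exists_nat_gt (1 / (2 * ε))
    have hk0 : (0 : ℝ) < k := lt_trans (by positivity) hk
    have hk1 : 0 < k := by exact_mod_cast hk0
    refine ⟨2 * k + 4, fun n => ⟨host n k, ?_, easy_mono (easy_host hk1) (host_bound k n)⟩⟩
    refine le_trans ?_ (card_host hk1)
    have h1 : 1 / (2 * (k : ℝ)) ≤ ε := by
      rw [div_lt_iff₀ (by positivity)] at hk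
      rw [div_le_iff₀ (by positivity)]
      nlinarith
    have h2 : (0 : ℝ) ≤ (n : ℝ) ^ 2 := by positivity
    nlinarith

end Pool.Agent.H181R5.NLT
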